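import Pool.Agent.H82.NTC.Pot

/-!
# Board `ntc`, row PWJ1
-/

set_option autoImplicit false

namespace Pool.NTC

open Pool.NET

theorem pwj1_thm : PWk Ke.J1 := by
  intro p e g e' g' h u _ _ _ tt _ v a s _ _ H
  exfalso
  simp only [prW] at H
  generalize fy p e (pv2 h u (v, Ke.J1)) + tt (pv2 h u (v, Ke.J1)) = A at H
  generalize fy p e' a + s = B at H
  have h1 : (4 * A + 1 - 4 * A) = 1 := by ring
  rw [h1, abs_one, abs_lt] at H
  omega

end Pool.NTC
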